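import Pool.Agent.H53.ES.Rs

/-!
# H53.ES.Wn: the windows of the rule R* (RS-C1)
-/

set_option autoImplicit false

namespace Pool.Agent.H53.ES

open Finset Pool.Agent.H69L.TP Pool.Agent.H12.RS
open Pool.Agent.H85.TK (zs be Cb rel cb_const zs_add zs_le zs_succ zs_empty rel_sum_ge)

variable {c r : ℕ} {I : Finset ℕ} {w : ℕ → Bool}

/-- the prefix sums of the windows -/
def Kc (c r : ℕ) (I : Finset ℕ) (w : ℕ → Bool) (b : ℕ) : ℕ :=
  ((W c r I w).filter fun f => f < b).card

theorem P_mono {a b : ℕ} (h : a ≤ b) : P c r I w a ≤ P c r I w b := by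
  have := zs_add (Nat.zero_le a) h w
  unfold P
  omega

theorem P_lip {a b : ℕ} (h : a ≤ b) : P c r I w b ≤ P c r I w a + (b - a) := by
  have h1 := zs_add (Nat.zero_le a) h w
  have h2 := zs_le w a b
  unfold P
  omega

theorem P_zero : P c r I w 0 = 0 := by
  unfold P
  rw [zs_empty w le_rfl]
  omega

theorem W_iff {f : ℕ} (h : f < c) : f ∈ W c r I w ↔
    ye r c I f ≤ f + (P c r I w (ye r c I f) - P c r I w (ys r I f)) := by
  unfold W
  simp [h]

theorem Kc_zero : Kc c r I w 0 = 0 := by
  unfold Kc
  simp

theorem Kc_succ {b : ℕ} : Kc c r I w (b + 1) = Kc c r I w b + if b ∈ W c r I w then 1 else 0 := by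
  unfold Kc
  have e : ((W c r I w).filter fun f => f < b + 1) =
      ((W c r I w).filter fun f => f < b) ∪ (W c r I w).filter fun f => f = b := by
    ext f
    simp only [mem_filter, mem_union]
    constructor
    · rintro ⟨h1, h2⟩
      rcases Nat.lt_succ_iff_lt_or_eq.1 h2 with h3 | h3
      · exact Or.inl ⟨h1, h3⟩
      · exact Or.inr ⟨h1, h3⟩
    · rintro (⟨h1, h2⟩ | ⟨h1, h2⟩)
      · exact ⟨h1, by omega⟩
      · exact ⟨h1, by omega⟩
  rw [e, card_union_of_disjoint]
  · congr 1
    split_ifs with h
    · rw [show (W c r I w).filter (fun f => f = b) = {b} by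
        ext f
        rw [mem_filter, mem_singleton]
        exact ⟨fun h1 => h1.2, fun h1 => ⟨h1 ▸ h, h1⟩⟩]
      rfl
    · rw [card_eq_zero, filter_eq_empty_iff]
      intro f hf hfb
      exact h (hfb ▸ hf)
  · rw [disjoint_left]
    intro f h1 h2
    rw [mem_filter] at h1 h2
    omega

theorem ys_self {b : ℕ} (h : b = 0 ∨ r + b ∉ I) : ys r I b = b := by
  apply le_antisymm (ys_le r I b)
  unfold ys
  exact Nat.le_findGreatest le_rfl h

theorem ye_in {b : ℕ} (h : b + 1 < c) (h1 : r + (b + 1) ∈ I) : b + 1 < ye r c I b := by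
  have h2 := ye_gt r c I b
  have h3 := ye_spec r c I b
  by_contra h4
  have h5 : ye r c I b = b + 1 := by omega
  rw [h5] at h3
  rcases h3 with h3 | h3
  · omega
  · exact h3 h1

theorem ye_out {b : ℕ} (h : c ≤ b + 1 ∨ r + (b + 1) ∉ I) : ye r c I b = b + 1 := by
  apply le_antisymm _ (ye_gt r c I b)
  unfold ye
  exact Nat.find_min' (ye_ex r c I b) ⟨Nat.lt_succ_self b, h⟩

theorem ye_next {b : ℕ} (h : b + 1 < ye r c I b) : ye r c I (b + 1) = ye r c I b := by
  apply le_antisymm
  · exact Nat.find_min' (ye_ex r c I (b + 1)) ⟨h, ye_spec r c I b⟩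
  · exact Nat.find_min' (ye_ex r c I b) ⟨(Nat.lt_succ_self b).trans (ye_gt r c I (b + 1)),
      ye_spec r c I (b + 1)⟩

theorem ys_next {b : ℕ} (h : r + (b + 1) ∈ I) : ys r I (b + 1) = ys r I b := by
  have h1 := ys_spec r I (b + 1)
  have h2 := ys_le r I (b + 1)
  have h3 : ys r I (b + 1) ≤ b := by
    by_contra h4
    have h5 : ys r I (b + 1) = b + 1 := by omega
    rw [h5] at h1
    rcases h1 with h1 | h1
    · omega
    · exact h1 h
  apply le_antisymm
  · unfold ys at h1 h3 ⊢
    exact Nat.le_findGreatest h3 h1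
  · by_contra h4
    have h5 := ys_mem (not_le.1 h4) ((ys_le r I b).trans (Nat.le_succ b))
    rcases ys_spec r I b with h6 | h6
    · rw [h6] at h4
      exact h4 (Nat.zero_le _)
    · exact h6 h5

/-- the prefix sums -/
theorem Kc_eq {b : ℕ} (hb : b < c) : Kc c r I w b =
    max (P c r I w (ys r I b)) (P c r I w (ye r c I b) + b - ye r c I b) := by
  induction b with
  | zero =>
    rw [Kc_zero, ys_self (Or.inl rfl), P_zero]
    have h1 := P_lip (c := c) (r := r) (I := I) (w := w) (Nat.zero_le (ye r c I 0))
    rw [P_zero] at h1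
    omega
  | succ b ih =>
    have ih' := ih (by omega)
    have h1 := ye_gt r c I b
    have h2 := ys_le r I b
    have h3 := P_mono (c := c) (r := r) (I := I) (w := w) (show ys r I b ≤ ye r c I b by omega)
    rw [Kc_succ, ih']
    by_cases hI : r + (b + 1) ∈ I
    · have h4 := ye_in hb hI
      rw [ye_next h4, ys_next hI]
      have h5 := W_iff (c := c) (r := r) (I := I) (w := w) (show b < c by omega)
      split_ifs with h6
      · have h7 := h5.1 h6
        omega
      · have h7 := (not_congr h5).1 h6
        omega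
    · have h4 : ye r c I b = b + 1 := ye_out (Or.inr hI)
      have h5 := W_iff (c := c) (r := r) (I := I) (w := w) (show b < c by omega)
      rw [ys_self (Or.inr hI)]
      rw [h4] at h3 h5 ⊢
      have h8 := ye_gt r c I (b + 1)
      have h9 := P_lip (c := c) (r := r) (I := I) (w := w) h8.le
      split_ifs with h6
      · have h7 := h5.1 h6
        omega
      · have h7 := (not_congr h5).1 h6
        omega

/-- the prefix sums at the end of a block -/
theorem Kc_end {b : ℕ} (hb : b ≤ c) (h : b = 0 ∨ b = c ∨ r + b ∉ I) :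
    Kc c r I w b = P c r I w b := by
  rcases Nat.eq_zero_or_pos b with h0 | h0
  · rw [h0, Kc_zero, P_zero]
  obtain ⟨b, rfl⟩ := Nat.exists_eq_succ_of_ne_zero h0.ne'
  have h4 : ye r c I b = b + 1 := by
    apply ye_out
    rcases h with h | h | h
    · omega
    · left
      omega
    · exact Or.inr h
  have h2 := ys_le r I b
  have h3 := P_mono (c := c) (r := r) (I := I) (w := w) (show ys r I b ≤ b + 1 by omega)
  have h5 := W_iff (c := c) (r := r) (I := I) (w := w) (show b < c by omega)
  have h6 := Kc_eq (c := c) (r := r) (I := I) (w := w) (show b < c by omega)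
  show Kc c r I w (b + 1) = P c r I w (b + 1)
  rw [Kc_succ, h6]
  rw [h4] at h5 ⊢
  split_ifs with h7
  · have h8 := h5.1 h7
    omega
  · have h8 := (not_congr h5).1 h7
    omega

theorem A_add (hcr : c ≤ r) : (X c r I w).card + A c r I w = zs w 0 c := by
  have h1 := sr_bal c r I w r
  rw [rel_sum_ge hcr] at h1
  have h2 := card_X (c := c) (I := I) (w := w) (a := 0) (b := r) le_rfl
  rw [← range_eq_Ico] at h2
  have h3 : (X c r I w).filter (fun T => 0 ≤ T ∧ T < r) = X c r I w := by
    refine filter_true_of_mem fun T hT => ⟨Nat.zero_le _, ?_⟩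
    exact mem_range.1 (X_sub c r I w hT)
  rw [h3] at h2
  unfold A
  omega

theorem W_card (hcr : c ≤ r) : (W c r I w).card = A c r I w := by
  have h1 := Kc_end (c := c) (r := r) (I := I) (w := w) le_rfl (Or.inr (Or.inl rfl))
  have h2 : Kc c r I w c = (W c r I w).card := by
    unfold Kc
    congr 1
    exact filter_true_of_mem fun f hf => mem_range.1 (W_sub c r I w hf)
  rw [← h2, h1]
  have h3 := A_add (I := I) (w := w) hcr
  unfold P
  omega

theorem W_tot (hcr : c ≤ r) : (X c r I w).card + (W c r I w).card = zs w 0 c := by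
  rw [W_card hcr]
  exact A_add hcr

theorem W_pre {b : ℕ} (hb : b ≤ c) : ((W c r I w).filter fun f => f < b).card ≤ zs w 0 b := by
  change Kc c r I w b ≤ zs w 0 b
  rcases Nat.lt_or_ge b c with h | h
  · rw [Kc_eq h]
    have h1 := ye_gt r c I b
    have h2 := ys_le r I b
    have h3 := zs_add (Nat.zero_le _) h2 w
    have h4 := zs_add (Nat.zero_le b) h1.le w
    have h5 := zs_le w b (ye r c I b)
    have h6 : P c r I w (ys r I b) ≤ zs w 0 (ys r I b) := Nat.min_le_right _ _
    have h7 : P c r I w (ye r c I b) ≤ zs w 0 (ye r c I b) := Nat.min_le_right _ _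
    omega
  · have h1 : b = c := by omega
    rw [Kc_end hb (Or.inr (Or.inl h1))]
    exact Nat.min_le_right _ _

/-- the lines of a block of windows have one bit -/
theorem ye_bit (hw : Cb c r I w) {s i : ℕ} (h : s ≤ i) (h' : i < ye r c I s) :
    w (r + i) = w (r + s) := by
  induction i, h using Nat.le_induction with
  | base => rfl
  | succ i h ih =>
    have h1 := ye_mem (Nat.lt_succ_of_le h) h'
    have h2 := hw (r + (i + 1)) h1.1 (by omega) (by omega)
    rw [h2, show r + (i + 1) - 1 = r + i by omega]
    exact ih (by omega)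

theorem ye_ys (b : ℕ) (hb : b < c) : ye r c I (ys r I b) = ye r c I b := by
  apply le_antisymm
  · exact Nat.find_min' (ye_ex r c I (ys r I b)) ⟨(ys_le r I b).trans_lt (ye_gt r c I b),
      ye_spec r c I b⟩
  · refine Nat.find_min' (ye_ex r c I b) ⟨?_, ye_spec r c I (ys r I b)⟩
    by_contra h
    have h1 := ye_gt r c I (ys r I b)
    have h2 := ys_mem h1 (not_lt.1 h)
    rcases ye_spec r c I (ys r I b) with h3 | h3
    · omega
    · exact h3 h2

/-- the tail at the end of a block -/
theorem tail_end (hcr : c ≤ r)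
    (hE : ∀ b ≤ c, zs w b c ≤ ((X c r I w).filter fun T => b ≤ T ∧ T < r).card +
      zs w (r + b) (r + c)) {b : ℕ} (hb : b ≤ c) :
    A c r I w ≤ P c r I w b + zs w (r + b) (r + c) := by
  have h1 := hE b hb
  have h2 := A_add (I := I) (w := w) hcr
  have h3 := zs_add (Nat.zero_le b) hb w
  have h4 := card_filter_le (X c r I w) (fun T => b ≤ T ∧ T < r)
  unfold P
  omega

theorem W_tail (hw : Cb c r I w) (hcr : c ≤ r)
    (hE : ∀ b ≤ c, zs w b c ≤ ((X c r I w).filter fun T => b ≤ T ∧ T < r).card +
      zs w (r + b) (r + c)) {b : ℕ} (hb : b ≤ c) :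
    ((W c r I w).filter fun f => b ≤ f).card ≤ zs w (r + b) (r + c) := by
  have h1 := split_card (W c r I w) b
  rw [W_card hcr] at h1
  change Kc c r I w b + _ = _ at h1
  suffices h2 : A c r I w ≤ Kc c r I w b + zs w (r + b) (r + c) by omega
  rcases Nat.lt_or_ge b c with h | h
  · have k1 := ye_gt r c I b
    have k2 := ys_le r I b
    have k3 := ye_le (r := r) (I := I) h
    have k4 := tail_end hcr hE (show ys r I b ≤ c by omega)
    have k5 := tail_end hcr hE k3
    have k6 := Kc_eq (c := c) (r := r) (I := I) (w := w) h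
    have k7 : ∀ i, ys r I b ≤ i → i < ye r c I b → w (r + i) = w (r + ys r I b) := by
      intro i hi hi'
      exact ye_bit hw hi (by rw [ye_ys b h]; exact hi')
    cases hbit : w (r + ys r I b)
    · -- zeros
      have k8 : zs w (r + b) (r + ye r c I b) = ye r c I b - b := by
        unfold zs
        rw [filter_true_of_mem, Nat.card_Ico]
        · omega
        · intro i hi
          rw [mem_Ico] at hi
          have := k7 (i - r) (by omega) (by omega)
          rw [show r + (i - r) = i by omega, hbit] at this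
          exact this
      have k9 := zs_add (show r + b ≤ r + ye r c I b by omega)
        (show r + ye r c I b ≤ r + c by omega) w
      omega
    · -- ones
      have k8 : zs w (r + ys r I b) (r + b) = 0 := by
        unfold zs
        rw [card_eq_zero, filter_eq_empty_iff]
        intro i hi
        rw [mem_Ico] at hi
        have := k7 (i - r) (by omega) (by omega)
        rw [show r + (i - r) = i by omega, hbit] at this
        rw [this]
        simp
      have k9 := zs_add (show r + ys r I b ≤ r + b by omega) (show r + b ≤ r + c by omega) w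
      omega
  · have h1 : b = c := by omega
    have h3 := tail_end hcr hE hb
    rw [Kc_end hb (Or.inr (Or.inl h1))]
    exact h3

/-- the facts for RS-D -/
theorem fa (hw : Cb c r I w) (hcr : c ≤ r)
    (hA : ∀ y ≤ r, zs w 0 c ≤ ((X c r I w).filter fun T => 0 ≤ T ∧ T < y).card + zs w y (y + c))
    (hE : ∀ b ≤ c, zs w b c ≤ ((X c r I w).filter fun T => b ≤ T ∧ T < r).card +
      zs w (r + b) (r + c)) : Fa c r I w where
  a := fun y hy => by
    have h := hA y hy
    simp only [zero_le, true_and] at h
    exact h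
  tot := W_tot hcr
  pre := fun _ hb => W_pre hb
  tail := fun _ hb => W_tail hw hcr hE hb

end Pool.Agent.H53.ES
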