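import Pool.Agent.H53.ES.Cmp
import Pool.Agent.H85.TK.Count

/-!
# H53.ES.Adm: the counting conditions for the marks imply the pair inequality
-/

set_option autoImplicit false

namespace Pool.Agent.H53.ES

open Finset Pool.Agent.H69L.TP Pool.Agent.H85.TK

/-- the conditions for one kind of marks: `X` marked ones, `W` windows -/
structure Sd (c r : ℕ) (w : ℕ → Bool) (X W : Finset ℕ) : Prop where
  sub : X ⊆ range r
  one : ∀ j ∈ X, w (c + j) = true
  wsub : W ⊆ range c
  tot : X.card + W.card = zs w 0 c
  lo : ∀ y ≤ r, zs w 0 c ≤ (X.filter fun j => j < y).card + zs w y (y + c)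
  tail : ∀ b ≤ c, (W.filter fun f => b ≤ f).card ≤ zs w (r + b) (r + c)

/-- the complementary word -/
def cw (w : ℕ → Bool) (i : ℕ) : Bool := !(w i)

/-- the condition for the windows of the first kind and the marks in the first lap -/
def Hd (c : ℕ) (w : ℕ → Bool) (X W X' : Finset ℕ) : Prop :=
  ∀ b ≤ c, (W.filter fun f => f < b).card + (X.filter fun j => j < b).card + zs (cw w) 0 b ≤
    zs w 0 b + zs (cw w) c (c + b) + (X'.filter fun j => j < b).card

/-- the conditions for all marks of a word -/
structure Ad (c r : ℕ) (w : ℕ → Bool) (X W X' W' : Finset ℕ) : Prop where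
  s : Sd c r w X W
  s' : Sd c r (cw w) X' W'
  hd : Hd c w X W X'
  hd' : Hd c (cw w) X' W' X

theorem exists_q {c r : ℕ} (h0 : 0 < c + r) {u v : ℕ → Bool} (h : Cx (c + r) u v) :
    ∃ y < c + r, ∃ b, ∀ i < c + r, u i ≠ v i → q y b i = u i := by
  rcases h with ⟨k, h1, h2⟩ | ⟨k, h1, h2⟩
  · by_cases hk : k < c + r
    · refine ⟨k, hk, false, fun i hi hne => ?_⟩
      have h3 := h1 i hi
      have h4 := h2 i hi
      unfold q
      by_cases hik : i < k
      · rw [if_pos hik]
        have := h3 hik
        cases hu : u i <;> cases hv : v i <;> simp_all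
      · rw [if_neg hik]
        have := h4 (not_lt.1 hik)
        cases hu : u i <;> cases hv : v i <;> simp_all
    · refine ⟨0, h0, true, fun i hi hne => ?_⟩
      have h3 := h1 i hi (by omega)
      unfold q
      rw [if_neg (by omega)]
      cases hu : u i <;> cases hv : v i <;> simp_all
  · by_cases hk : k < c + r
    · refine ⟨k, hk, true, fun i hi hne => ?_⟩
      have h3 := h1 i hi
      have h4 := h2 i hi
      unfold q
      by_cases hik : i < k
      · rw [if_pos hik]
        have := h3 hik
        cases hu : u i <;> cases hv : v i <;> simp_all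
      · rw [if_neg hik]
        have := h4 (not_lt.1 hik)
        cases hu : u i <;> cases hv : v i <;> simp_all
    · refine ⟨0, h0, false, fun i hi hne => ?_⟩
      have h3 := h1 i hi (by omega)
      unfold q
      rw [if_neg (by omega)]
      cases hu : u i <;> cases hv : v i <;> simp_all

theorem zs_cw (w : ℕ → Bool) {a b : ℕ} (h : a ≤ b) : zs w a b + zs (cw w) a b = b - a := by
  unfold zs cw
  have e : ((Ico a b).filter fun i => (!(w i)) = false) = (Ico a b).filter fun i => ¬ (w i = false) :=
    filter_congr fun i _ => by cases w i <;> simp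
  rw [e, card_filter_add_card_filter_not, Nat.card_Ico]

/-- zeros on bases -/
theorem zs_sum (w : ℕ → Bool) {c r a b : ℕ} (hb : b ≤ r) :
    zs w (c + a) (c + b) = ∑ j ∈ range r, if a ≤ j ∧ j < b ∧ w (c + j) = false then 1 else 0 := by
  rw [← card_filter]
  unfold zs
  symm
  apply card_bij (fun j _ => c + j)
  · intro j hj
    rw [mem_filter, mem_range] at hj
    rw [mem_filter, mem_Ico]
    exact ⟨by omega, hj.2.2.2⟩
  · intro j _ j' _ h
    omega
  · intro i hi
    rw [mem_filter, mem_Ico] at hi
    refine ⟨i - c, ?_, by omega⟩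
    rw [mem_filter, mem_range]
    have e : c + (i - c) = i := by omega
    rw [e]
    exact ⟨by omega, by omega, by omega, hi.2⟩

theorem card_sum {r : ℕ} {X : Finset ℕ} (h : X ⊆ range r) (P : ℕ → Prop) [DecidablePred P] :
    (X.filter P).card = ∑ j ∈ range r, if j ∈ X ∧ P j then 1 else 0 := by
  rw [← card_filter]
  congr 1
  ext j
  simp only [mem_filter, mem_range]
  constructor
  · rintro ⟨h1, h2⟩
    exact ⟨mem_range.1 (h h1), h1, h2⟩
  · rintro ⟨_, h1, h2⟩
    exact ⟨h1, h2⟩

theorem split_card (X : Finset ℕ) (y : ℕ) :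
    (X.filter fun j => j < y).card + (X.filter fun j => y ≤ j).card = X.card := by
  have e : (X.filter fun j => y ≤ j) = X.filter fun j => ¬ (j < y) :=
    filter_congr fun i _ => by omega
  rw [e, card_filter_add_card_filter_not]

/-- the word against a word with one change, `b = false` -/
theorem oc_false {c r : ℕ} (hc : c ≤ r) {w : ℕ → Bool} {X W X' W' : Finset ℕ} (h : Sd c r w X W)
    (h' : Sd c r (cw w) X' W') (hd : Hd c w X W X') {y : ℕ} (hy : y < c + r) :
    PI c r w (q y false) ⟨X ∪ X', W', W⟩ (mq c r y false) := by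
  unfold PI
  -- the marks of the bases
  have hone : ∀ j < r, j ∈ X → w (c + j) = true := fun j _ hj => h.one j hj
  have hzero : ∀ j < r, j ∈ X' → w (c + j) = false := fun j _ hj => by
    have := h'.one j hj
    unfold cw at this
    cases hw : w (c + j) <;> simp_all
  have hZ : ∀ j, j < r → (j ∈ (mq c r y false).Z ↔ (y ≤ c + j ∧ j < y)) := fun j hj => by
    unfold mq
    simp [hj]
  have hP : ∀ i, i < c → (i ∈ (mq c r y false).Wp ↔ ((y ≤ i ∨ i + r < y) ∧ y ≤ i)) := fun i hi => by
    unfold mq win q
    simp only [mem_filter, mem_range]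
    constructor
    · rintro ⟨_, h1, h2⟩
      refine ⟨h1, ?_⟩
      by_contra h3
      rw [if_pos (by omega)] at h2
      exact absurd h2 (by simp)
    · rintro ⟨h1, h2⟩
      refine ⟨hi, h1, ?_⟩
      rw [if_neg (by omega)]
      rfl
  have hM : ∀ i, i < c → (i ∈ (mq c r y false).Wm ↔ ((y ≤ i ∨ i + r < y) ∧ i < y)) := fun i hi => by
    unfold mq win q
    simp only [mem_filter, mem_range]
    constructor
    · rintro ⟨_, h1, h2⟩
      refine ⟨h1, ?_⟩
      by_contra h3
      rw [if_neg (by omega)] at h2
      exact absurd h2 (by simp)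
    · rintro ⟨h1, h2⟩
      refine ⟨hi, h1, ?_⟩
      rw [if_pos (by omega)]
  have hq1 : ∀ i, i < y → q y false i = false := fun i hi => by unfold q; rw [if_pos hi]
  have hq2 : ∀ i, y ≤ i → q y false i = true := fun i hi => by
    unfold q
    rw [if_neg (by omega)]
    rfl
  have hcw : ∀ i, cw w i = false ↔ w i = true := fun i => by unfold cw; cases w i <;> simp
  have e0 : ((range c).filter fun i => ¬ (w i = q y false i)).card =
      zs (cw w) 0 (min c y) + zs w (min c y) c := by
    have e1 : ((range c).filter fun i => ¬ (w i = q y false i)) =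
        ((Ico 0 (min c y)).filter fun i => cw w i = false) ∪
          (Ico (min c y) c).filter fun i => w i = false := by
      ext i
      simp only [mem_filter, mem_range, mem_union, mem_Ico, hcw]
      by_cases hi : i < y
      · rw [hq1 i hi]
        cases hw : w i <;> simp <;> omega
      · rw [hq2 i (by omega)]
        cases hw : w i <;> simp <;> omega
    rw [e1, card_union_of_disjoint]
    · rfl
    · rw [disjoint_left]
      intro i h1 h2
      rw [mem_filter, mem_Ico] at h1 h2
      omega
  rw [e0]
  have hX := h.sub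
  have hX' := h'.sub
  rcases lt_or_ge y c with hyc | hyc
  · -- the change is in the free part
    have hb : (∑ j ∈ range r, if 0 ≤ j ∧ j < y ∧ cw w (c + j) = false then 1 else 0) +
        (∑ j ∈ range r, if j ∈ X' ∧ j < y then 1 else 0) +
        (∑ j ∈ range r, if j ∈ X ∧ y ≤ j then 1 else 0) ≤
        ((range r).filter fun j => w (c + j) = q y false (c + j) ∧
          (j ∈ X ∪ X' ∨ j ∈ (mq c r y false).Z)).card +
        ((range r).filter fun j => ¬ (w (c + j) = q y false (c + j)) ∧
          j ∈ X ∪ X' ∧ j ∈ (mq c r y false).Z).card := by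
      rw [card_filter, card_filter, ← sum_add_distrib, ← sum_add_distrib, ← sum_add_distrib]
      refine sum_le_sum fun j hj => ?_
      have hj' := mem_range.1 hj
      have k1 := hone j hj'
      have k2 := hzero j hj'
      simp only [hZ j hj', hq2 (c + j) (by omega), hcw, mem_union]
      have j6 : y ≤ c + j := by omega
      by_cases j3 : j < y
      · have j7 : ¬ (y ≤ j) := by omega
        by_cases j1 : j ∈ X <;> by_cases j2 : j ∈ X' <;>
          cases hw : w (c + j) <;> simp [j1, j2, j3, j6, j7, hw] at k1 k2 ⊢
      · have j7 : y ≤ j := by omega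
        by_cases j1 : j ∈ X <;> by_cases j2 : j ∈ X' <;>
          cases hw : w (c + j) <;> simp [j1, j2, j3, j6, j7, hw] at k1 k2 ⊢
    have hw1 : (W.filter fun f => y ≤ f).card ≤
        ((range c).filter fun i => i ∈ W ∧ i ∈ (mq c r y false).Wp).card := by
      refine card_le_card fun i hi => ?_
      rw [mem_filter] at hi ⊢
      have h3 := mem_range.1 (h.wsub hi.1)
      exact ⟨h.wsub hi.1, hi.1, (hP i h3).2 ⟨Or.inl hi.2, hi.2⟩⟩
    rw [← zs_sum (cw w) (show y ≤ r by omega), ← card_sum hX' (fun j => j < y),
      ← card_sum hX (fun j => y ≤ j)] at hb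
    have k1 := split_card X y
    have k2 := split_card W y
    have k3 := hd y (by omega)
    have k4 := h.tot
    have k6 := zs_add (Nat.zero_le y) hyc.le w
    rw [Nat.min_eq_right hyc.le]
    rw [add_zero] at hb
    simp only [] at *
    omega
  rw [Nat.min_eq_left hyc]
  have k9 : zs w c c = 0 := zs_empty w le_rfl
  rcases le_or_gt y r with hyr | hyr
  · -- the change is at a base with a full window
    have hb : (∑ j ∈ range r, if y - c ≤ j ∧ j < y ∧ cw w (c + j) = false then 1 else 0) +
        (∑ j ∈ range r, if j ∈ X' ∧ j < y then 1 else 0) ≤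
        ((range r).filter fun j => w (c + j) = q y false (c + j) ∧
          (j ∈ X ∪ X' ∨ j ∈ (mq c r y false).Z)).card +
        ((range r).filter fun j => ¬ (w (c + j) = q y false (c + j)) ∧
          j ∈ X ∪ X' ∧ j ∈ (mq c r y false).Z).card := by
      rw [card_filter, card_filter, ← sum_add_distrib, ← sum_add_distrib]
      refine sum_le_sum fun j hj => ?_
      have hj' := mem_range.1 hj
      have k1 := hone j hj'
      have k2 := hzero j hj'
      simp only [hZ j hj', hcw, mem_union]
      by_cases j4 : c + j < y
      · rw [hq1 _ j4]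
        have j5 : ¬ (y - c ≤ j) := by omega
        have j6 : ¬ (y ≤ c + j) := by omega
        have j3 : j < y := by omega
        by_cases j1 : j ∈ X <;> by_cases j2 : j ∈ X' <;>
          cases hw : w (c + j) <;> simp [j1, j2, j3, j5, j6, hw] at k1 k2 ⊢
      · rw [hq2 _ (by omega)]
        have j5 : y - c ≤ j := by omega
        have j6 : y ≤ c + j := by omega
        by_cases j1 : j ∈ X <;> by_cases j2 : j ∈ X' <;> by_cases j3 : j < y <;>
          cases hw : w (c + j) <;> simp [j1, j2, j3, j5, j6, hw] at k1 k2 ⊢
    rw [← zs_sum (cw w) hyr, ← card_sum hX' (fun j => j < y)] at hb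
    have k5 := h'.lo y hyr
    rw [show c + (y - c) = y by omega, show c + y = y + c by omega] at hb
    simp only [] at *
    omega
  · -- the window of the change goes around
    have hb : (∑ j ∈ range r, if y - c ≤ j ∧ j < r ∧ cw w (c + j) = false then 1 else 0) +
        (∑ j ∈ range r, if j ∈ X' ∧ True then 1 else 0) ≤
        ((range r).filter fun j => w (c + j) = q y false (c + j) ∧
          (j ∈ X ∪ X' ∨ j ∈ (mq c r y false).Z)).card +
        ((range r).filter fun j => ¬ (w (c + j) = q y false (c + j)) ∧
          j ∈ X ∪ X' ∧ j ∈ (mq c r y false).Z).card := by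
      rw [card_filter, card_filter, ← sum_add_distrib, ← sum_add_distrib]
      refine sum_le_sum fun j hj => ?_
      have hj' := mem_range.1 hj
      have k1 := hone j hj'
      have k2 := hzero j hj'
      simp only [hZ j hj', hcw, mem_union]
      have j3 : j < y := by omega
      by_cases j4 : c + j < y
      · rw [hq1 _ j4]
        have j5 : ¬ (y - c ≤ j) := by omega
        have j6 : ¬ (y ≤ c + j) := by omega
        by_cases j1 : j ∈ X <;> by_cases j2 : j ∈ X' <;>
          cases hw : w (c + j) <;> simp [j1, j2, j3, j5, j6, hw] at k1 k2 ⊢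
      · rw [hq2 _ (by omega)]
        have j5 : y - c ≤ j := by omega
        have j6 : y ≤ c + j := by omega
        by_cases j1 : j ∈ X <;> by_cases j2 : j ∈ X' <;>
          cases hw : w (c + j) <;> simp [j1, j2, j3, j5, j6, hj', hw] at k1 k2 ⊢
    have hw1 : (W'.filter fun f => f < y - r).card ≤
        ((range c).filter fun i => i ∈ W' ∧ i ∈ (mq c r y false).Wm).card := by
      refine card_le_card fun i hi => ?_
      rw [mem_filter] at hi ⊢
      have h3 := mem_range.1 (h'.wsub hi.1)
      exact ⟨h'.wsub hi.1, hi.1, (hM i h3).2 ⟨Or.inr (by omega), by omega⟩⟩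
    rw [← zs_sum (cw w) le_rfl, ← card_sum hX' (fun _ => True), filter_true_of_mem
      (fun _ _ => trivial)] at hb
    have k2 := split_card W' (y - r)
    have k4 := h'.tot
    have k5 := h'.tail (y - r) (by omega)
    rw [show c + (y - c) = y by omega] at hb
    rw [show r + (y - r) = y by omega, show r + c = c + r by omega] at k5
    simp only [] at *
    omega

theorem PI_compl {c r : ℕ} {u v : ℕ → Bool} {Z P M Z' P' M' : Finset ℕ}
    (h : PI c r (cw u) (cw v) ⟨Z, M, P⟩ ⟨Z', M', P'⟩) : PI c r u v ⟨Z, P, M⟩ ⟨Z', P', M'⟩ := by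
  unfold PI at h ⊢
  have hcw : ∀ i, (cw u i = cw v i) ↔ (u i = v i) := fun i => by
    unfold cw
    cases u i <;> cases v i <;> simp
  simp only [hcw] at h
  simp only [] at h ⊢
  omega

theorem q_cw (y : ℕ) (b : Bool) : cw (q y b) = q y (!b) := by
  funext i
  unfold cw q
  split_ifs <;> simp

theorem cw_cw (w : ℕ → Bool) : cw (cw w) = w := by
  funext i
  unfold cw
  simp

theorem oc_true {c r : ℕ} (hc : c ≤ r) {w : ℕ → Bool} {X W X' W' : Finset ℕ} (h : Sd c r w X W)
    (h' : Sd c r (cw w) X' W') (hd' : Hd c (cw w) X' W' X) {y : ℕ} (hy : y < c + r) :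
    PI c r w (q y true) ⟨X ∪ X', W', W⟩ (mq c r y true) := by
  have h1 := oc_false hc h' (by rw [cw_cw]; exact h) hd' hy
  have e1 : (mq c r y false) = ⟨(mq c r y true).Z, (mq c r y true).Wm, (mq c r y true).Wp⟩ := by
    unfold mq
    have e2 : ∀ i, (q y false i = true) ↔ (q y true i = false) := fun i => by
      unfold q
      split_ifs <;> simp
    have e3 : ∀ i, (q y false i = false) ↔ (q y true i = true) := fun i => by
      unfold q
      split_ifs <;> simp
    simp only [e2, e3]
  rw [e1, union_comm] at h1
  have e4 : q y false = cw (q y true) := by rw [q_cw]; rfl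
  rw [e4] at h1
  exact PI_compl h1

theorem oc {c r : ℕ} (hc : c ≤ r) {w : ℕ → Bool} {X W X' W' : Finset ℕ} (h : Ad c r w X W X' W')
    {y : ℕ} (hy : y < c + r) (b : Bool) :
    PI c r w (q y b) ⟨X ∪ X', W', W⟩ (mq c r y b) := by
  cases b
  · exact oc_false hc h.s h.s' h.hd hy
  · exact oc_true hc h.s h.s' h.hd' hy

/-- the pair inequality -/
theorem pair {c r : ℕ} (hc : c ≤ r) (h0 : 0 < r) {u v : ℕ → Bool} (huv : Cx (c + r) u v)
    {X W X' W' Y V Y' V' : Finset ℕ} (h1 : Ad c r u X W X' W') (h2 : Ad c r v Y V Y' V') :
    PI c r u v ⟨X ∪ X', W', W⟩ ⟨Y ∪ Y', V', V⟩ := by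
  obtain ⟨y, hy, b, hq⟩ := exists_q (by omega) huv
  exact comp hc hy hq (oc hc h1 hy (!b)) (PI_symm (oc hc h2 hy b))

/-! ### the heads -/

/-- the marks in the first lap have the own type, and they are natural outside of a block which
contains the last free line -/
structure Nt (c : ℕ) (w : ℕ → Bool) (X : Finset ℕ) : Prop where
  own : ∀ T ∈ X, T < c → w T = false
  nat : ∀ T < c, w T = false → w (c + T) = true → T ∉ X → ∀ i, T ≤ i → i < c → w i = false

/-- the pairs `(1, 0)` on the lines `i`, `c + i`, `i < b` -/
def n10 (c : ℕ) (w : ℕ → Bool) (b : ℕ) : ℕ :=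
  ((range b).filter fun i => w i = true ∧ w (c + i) = false).card

theorem zs_shift (c : ℕ) (w : ℕ → Bool) (b : ℕ) :
    zs w c (c + b) = ((range b).filter fun i => w (c + i) = false).card := by
  unfold zs
  symm
  apply card_bij (fun j _ => c + j)
  · intro j hj
    rw [mem_filter, mem_range] at hj
    rw [mem_filter, mem_Ico]
    exact ⟨by omega, hj.2⟩
  · intro j _ j' _ h
    omega
  · intro i hi
    rw [mem_filter, mem_Ico] at hi
    refine ⟨i - c, ?_, by omega⟩
    rw [mem_filter, mem_range]
    have e : c + (i - c) = i := by omega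
    rw [e]
    exact ⟨by omega, hi.2⟩

theorem zs_range (w : ℕ → Bool) (b : ℕ) :
    zs w 0 b = ((range b).filter fun i => w i = false).card := by
  unfold zs
  rw [range_eq_Ico]

/-- difference of the numbers of ones -/
theorem n10_sub (c : ℕ) (w : ℕ → Bool) (b : ℕ) :
    zs (cw w) 0 b + n10 c (cw w) b = zs (cw w) c (c + b) + n10 c w b := by
  rw [zs_range, zs_shift]
  unfold n10
  rw [card_filter, card_filter, card_filter, card_filter, ← sum_add_distrib, ← sum_add_distrib]
  refine sum_congr rfl fun i _ => ?_
  unfold cw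
  cases h1 : w i <;> cases h2 : w (c + i) <;> simp

theorem X_le_n10 {c r : ℕ} {w : ℕ → Bool} {X W : Finset ℕ} (h : Sd c r w X W) (h' : Nt c w X)
    {b : ℕ} (hb : b ≤ c) : (X.filter fun j => j < b).card ≤ n10 c (cw w) b := by
  unfold n10
  refine card_le_card fun j hj => ?_
  rw [mem_filter] at hj ⊢
  refine ⟨mem_range.2 hj.2, ?_, ?_⟩
  · unfold cw
    rw [h'.own j hj.1 (by omega)]
    rfl
  · unfold cw
    rw [h.one j hj.1]
    rfl

theorem head {c r : ℕ} (hc : c ≤ r) {w : ℕ → Bool} {X W X' W' : Finset ℕ} (h : Sd c r w X W)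
    (h' : Sd c r (cw w) X' W') (hn : Nt c w X) (hn' : Nt c (cw w) X')
    (hW : ∀ b ≤ c, (W.filter fun f => f < b).card ≤ zs w 0 b) : Hd c w X W X' := by
  intro b hb
  have e1 := n10_sub c w b
  have e2 := X_le_n10 h hn hb
  have e3 := hW b hb
  have e4 : (X'.filter fun j => j < b).card ≤ n10 c w b := by
    have := X_le_n10 h' hn' hb
    rw [cw_cw] at this
    exact this
  by_cases hex : ∃ T < b, w T = true ∧ w (c + T) = false ∧ T ∉ X'
  · obtain ⟨T, hT, hT1, hT2, hT3⟩ := hex
    have hone : ∀ i, T ≤ i → i < c → w i = true := by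
      intro i hi hic
      have := hn'.nat T (by omega) (by unfold cw; rw [hT1]; rfl) (by unfold cw; rw [hT2]; rfl) hT3
        i hi hic
      unfold cw at this
      cases hw : w i <;> simp_all
    -- no zeros in `[b, c)`
    have f1 : zs w b c = 0 := by
      unfold zs
      rw [card_eq_zero, filter_eq_empty_iff]
      intro i hi
      rw [mem_Ico] at hi
      rw [hone i (by omega) hi.2]
      simp
    have f2 := zs_add (Nat.zero_le b) hb w
    have f3 := h.tot
    have f4 := card_filter_le W (fun f => f < b)
    have f5 : (X.filter fun j => j < b) = X.filter fun j => j < c := by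
      refine filter_congr fun j hj => ⟨fun h => by omega, fun h => ?_⟩
      by_contra h5
      have := hn.own j hj h
      rw [hone j (by omega) h] at this
      exact absurd this (by simp)
    have f6 := card_filter_le X (fun j => j < c)
    have f7 := h'.lo c hc
    have f8 := n10_sub c w c
    have f9 : n10 c (cw w) b = n10 c (cw w) c := by
      unfold n10
      congr 1
      ext i
      simp only [mem_filter, mem_range]
      constructor
      · rintro ⟨h1, h2⟩
        exact ⟨by omega, h2⟩
      · rintro ⟨h1, h2, h3⟩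
        refine ⟨?_, h2, h3⟩
        by_contra h4
        have := hone i (by omega) h1
        unfold cw at h2
        rw [this] at h2
        exact absurd h2 (by simp)
    -- the unmarked pairs
    have f10 : n10 c w b + (X'.filter fun j => j < c).card ≤
        n10 c w c + (X'.filter fun j => j < b).card := by
      have g1 : n10 c w c = n10 c w b +
          ((Ico b c).filter fun i => w i = true ∧ w (c + i) = false).card := by
        unfold n10
        rw [← card_union_of_disjoint]
        · congr 1
          ext i
          simp only [mem_filter, mem_range, mem_union, mem_Ico]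
          constructor
          · rintro ⟨h1, h2⟩
            by_cases h3 : i < b
            · exact Or.inl ⟨h3, h2⟩
            · exact Or.inr ⟨⟨by omega, h1⟩, h2⟩
          · rintro (⟨h1, h2⟩ | ⟨h1, h2⟩)
            · exact ⟨by omega, h2⟩
            · exact ⟨h1.2, h2⟩
        · rw [disjoint_left]
          intro i h1 h2
          rw [mem_filter, mem_range] at h1
          rw [mem_filter, mem_Ico] at h2
          omega
      have g2 : (X'.filter fun j => j < c).card ≤ (X'.filter fun j => j < b).card +
          ((Ico b c).filter fun i => w i = true ∧ w (c + i) = false).card := by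
        refine le_trans (card_le_card (t := (X'.filter fun j => j < b) ∪
          (Ico b c).filter fun i => w i = true ∧ w (c + i) = false) fun j hj => ?_)
          (card_union_le _ _)
        rw [mem_filter] at hj
        rw [mem_union, mem_filter, mem_filter, mem_Ico]
        by_cases h3 : j < b
        · exact Or.inl ⟨hj.1, h3⟩
        · right
          have h4 := hn'.own j hj.1 hj.2
          have h5 := h'.one j hj.1
          unfold cw at h4 h5
          refine ⟨⟨by omega, hj.2⟩, ?_, ?_⟩
          · cases hw : w j <;> simp_all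
          · cases hw : w (c + j) <;> simp_all
      omega
    rw [f5] at *
    rw [show c + c = c + c from rfl] at *
    have f11 : zs (cw w) c (c + c) + n10 c w c = zs (cw w) 0 c + n10 c (cw w) c := f8.symm
    omega
  · -- all pairs are marked
    have f1 : n10 c w b ≤ (X'.filter fun j => j < b).card := by
      unfold n10
      refine card_le_card fun i hi => ?_
      rw [mem_filter, mem_range] at hi
      rw [mem_filter]
      refine ⟨?_, hi.1⟩
      by_contra h3
      exact hex ⟨i, hi.1, hi.2.1, hi.2.2, h3⟩
    omega

/-- the conditions of a word from the one-sided facts -/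
theorem ad {c r : ℕ} (hc : c ≤ r) {w : ℕ → Bool} {X W X' W' : Finset ℕ} (h : Sd c r w X W)
    (h' : Sd c r (cw w) X' W') (hn : Nt c w X) (hn' : Nt c (cw w) X')
    (hW : ∀ b ≤ c, (W.filter fun f => f < b).card ≤ zs w 0 b)
    (hW' : ∀ b ≤ c, (W'.filter fun f => f < b).card ≤ zs (cw w) 0 b) : Ad c r w X W X' W' where
  s := h
  s' := h'
  hd := head hc h h' hn hn' hW
  hd' := head hc h' (by rw [cw_cw]; exact h) hn' (by rw [cw_cw]; exact hn) hW'

end Pool.Agent.H53.ES
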