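import Pool.Agent.H69L.TP.Rule

/-!
# H53.ES.Cmp: the pair inequality from the inequalities against words with one change
-/

set_option autoImplicit false

namespace Pool.Agent.H53.ES

open Finset Pool.Agent.H69L.TP

/-- the word which is `b` before `y` and `!b` from `y` on -/
def q (y : ℕ) (b : Bool) (i : ℕ) : Bool := if i < y then b else !b

/-- the window `i` is marked by a word with its change at `y` -/
def win (r y i : ℕ) : Prop := y ≤ i ∨ i + r < y

instance (r y i : ℕ) : Decidable (win r y i) := by unfold win; infer_instance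

/-- the regular marks of a word with one change -/
def mq (c r y : ℕ) (b : Bool) : Mk where
  Z := (range r).filter fun j => y ≤ c + j ∧ j < y
  Wp := (range c).filter fun i => win r y i ∧ q y b i = true
  Wm := (range c).filter fun i => win r y i ∧ q y b i = false

theorem PI_symm {c r : ℕ} {u v : ℕ → Bool} {x y : Mk} (h : PI c r u v x y) : PI c r v u y x := by
  unfold PI at h ⊢
  have e1 : ((range c).filter fun i => ¬ (v i = u i)) = (range c).filter fun i => ¬ (u i = v i) :=
    filter_congr fun i _ => by rw [eq_comm]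
  have e2 : ((range r).filter fun j => v (c + j) = u (c + j) ∧ (j ∈ y.Z ∨ j ∈ x.Z)) =
      (range r).filter fun j => u (c + j) = v (c + j) ∧ (j ∈ x.Z ∨ j ∈ y.Z) :=
    filter_congr fun i _ => by rw [eq_comm, or_comm]
  have e3 : ((range r).filter fun j => ¬ (v (c + j) = u (c + j)) ∧ j ∈ y.Z ∧ j ∈ x.Z) =
      (range r).filter fun j => ¬ (u (c + j) = v (c + j)) ∧ j ∈ x.Z ∧ j ∈ y.Z :=
    filter_congr fun i _ => by rw [eq_comm, and_comm (a := i ∈ y.Z)]
  have e4 : ((range c).filter fun i => i ∈ y.Wp ∧ i ∈ x.Wm) =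
      (range c).filter fun i => i ∈ x.Wm ∧ i ∈ y.Wp := filter_congr fun i _ => by rw [and_comm]
  have e5 : ((range c).filter fun i => i ∈ y.Wm ∧ i ∈ x.Wp) =
      (range c).filter fun i => i ∈ x.Wp ∧ i ∈ y.Wm := filter_congr fun i _ => by rw [and_comm]
  rw [e1, e2, e3, e4, e5]
  omega

/-- the number of the marks of a word with one change -/
theorem card_mq {c r y : ℕ} (hc : c ≤ r) (hy : y < c + r) :
    ((range r).filter fun j => y ≤ c + j ∧ j < y).card + ((range c).filter fun i => win r y i).card =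
      c := by
  have e1 : ((range r).filter fun j => y ≤ c + j ∧ j < y) = Ico (y - c) (min y r) := by
    ext j
    simp only [mem_filter, mem_range, mem_Ico]
    omega
  have e2 : ((range c).filter fun i => win r y i) = Ico y c ∪ Ico 0 (y - r) := by
    ext i
    simp only [mem_filter, mem_range, mem_Ico, mem_union, win]
    omega
  have e3 : Disjoint (Ico y c) (Ico 0 (y - r)) := by
    rw [disjoint_left]
    intro i hi hi'
    rw [mem_Ico] at hi hi'
    omega
  rw [e1, e2, card_union_of_disjoint e3, Nat.card_Ico, Nat.card_Ico, Nat.card_Ico]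
  omega

/-- composition through a word with one change -/
theorem comp {c r y : ℕ} (hc : c ≤ r) (hy : y < c + r) {b : Bool} {u v : ℕ → Bool} {x z : Mk}
    (hq : ∀ i < c + r, u i ≠ v i → q y b i = u i)
    (h1 : PI c r u (q y (!b)) x (mq c r y (!b))) (h2 : PI c r (q y b) v (mq c r y b) z) :
    PI c r u v x z := by
  have hcard := card_mq hc hy
  unfold PI at h1 h2 ⊢
  rw [card_filter, card_filter, card_filter, card_filter, card_filter] at h1 h2 ⊢
  rw [card_filter, card_filter] at hcard
  -- the free lines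
  have f1 : (∑ i ∈ range c, if ¬ (u i = q y (!b) i) then 1 else 0) +
      (∑ i ∈ range c, if ¬ (q y b i = v i) then 1 else 0) =
      (∑ i ∈ range c, if ¬ (u i = v i) then 1 else 0) + ∑ i ∈ range c, 1 := by
    simp only [← sum_add_distrib]
    refine sum_congr rfl fun i hi => ?_
    have hi' : i < c := mem_range.1 hi
    have h3 := hq i (by omega)
    have h4 : q y (!b) i = !(q y b i) := by unfold q; split_ifs <;> simp
    rw [h4]
    clear h4 h1 h2 hcard hq
    generalize q y b i = t at *
    generalize u i = s at *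
    generalize v i = s' at *
    cases s <;> cases s' <;> cases t <;> simp at h3 ⊢
  -- the bases
  have f2 : (∑ j ∈ range r, if u (c + j) = q y (!b) (c + j) ∧ (j ∈ x.Z ∨ j ∈ (mq c r y (!b)).Z)
        then 1 else 0) +
      (∑ j ∈ range r, if ¬ (u (c + j) = q y (!b) (c + j)) ∧ j ∈ x.Z ∧ j ∈ (mq c r y (!b)).Z
        then 1 else 0) +
      (∑ j ∈ range r, if q y b (c + j) = v (c + j) ∧ (j ∈ (mq c r y b).Z ∨ j ∈ z.Z)
        then 1 else 0) +
      (∑ j ∈ range r, if ¬ (q y b (c + j) = v (c + j)) ∧ j ∈ (mq c r y b).Z ∧ j ∈ z.Z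
        then 1 else 0) ≤
      (∑ j ∈ range r, if u (c + j) = v (c + j) ∧ (j ∈ x.Z ∨ j ∈ z.Z) then 1 else 0) +
      (∑ j ∈ range r, if ¬ (u (c + j) = v (c + j)) ∧ j ∈ x.Z ∧ j ∈ z.Z then 1 else 0) +
      (∑ j ∈ range r, if y ≤ c + j ∧ j < y then 1 else 0) := by
    simp only [← sum_add_distrib]
    refine sum_le_sum fun j hj => ?_
    have hj' : j < r := mem_range.1 hj
    have h3 := hq (c + j) (by omega)
    have h4 : q y (!b) (c + j) = !(q y b (c + j)) := by unfold q; split_ifs <;> simp
    have h5 : ∀ b', (j ∈ (mq c r y b').Z ↔ (y ≤ c + j ∧ j < y)) := by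
      intro b'
      unfold mq
      simp [hj']
    simp only [h4, h5]
    clear h4 h5 h1 h2 hcard f1 hq
    generalize q y b (c + j) = t at *
    generalize u (c + j) = s at *
    generalize v (c + j) = s' at *
    by_cases hx : j ∈ x.Z <;> by_cases hz : j ∈ z.Z <;> by_cases hmm : (y ≤ c + j ∧ j < y) <;>
      cases s <;> cases s' <;> cases t <;> simp [hx, hz, hmm] at h3 ⊢
  -- the windows
  have f3 : (∑ i ∈ range c, if i ∈ x.Wp ∧ i ∈ (mq c r y (!b)).Wm then 1 else 0) +
      (∑ i ∈ range c, if i ∈ x.Wm ∧ i ∈ (mq c r y (!b)).Wp then 1 else 0) +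
      (∑ i ∈ range c, if i ∈ (mq c r y b).Wp ∧ i ∈ z.Wm then 1 else 0) +
      (∑ i ∈ range c, if i ∈ (mq c r y b).Wm ∧ i ∈ z.Wp then 1 else 0) ≤
      (∑ i ∈ range c, if i ∈ x.Wp ∧ i ∈ z.Wm then 1 else 0) +
      (∑ i ∈ range c, if i ∈ x.Wm ∧ i ∈ z.Wp then 1 else 0) +
      (∑ i ∈ range c, if win r y i then 1 else 0) := by
    simp only [← sum_add_distrib]
    refine sum_le_sum fun i hi => ?_
    have hi' : i < c := mem_range.1 hi
    have h4 : q y (!b) i = !(q y b i) := by unfold q; split_ifs <;> simp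
    have h5 : ∀ b', (i ∈ (mq c r y b').Wp ↔ (win r y i ∧ q y b' i = true)) := by
      intro b'
      unfold mq
      simp [hi']
    have h6 : ∀ b', (i ∈ (mq c r y b').Wm ↔ (win r y i ∧ q y b' i = false)) := by
      intro b'
      unfold mq
      simp [hi']
    simp only [h4, h5, h6]
    clear h4 h5 h6 h1 h2 hcard f1 f2 hq
    generalize q y b i = t at *
    by_cases hx : i ∈ x.Wp <;> by_cases hx' : i ∈ x.Wm <;> by_cases hz : i ∈ z.Wp <;>
      by_cases hz' : i ∈ z.Wm <;> by_cases hmm : win r y i <;> cases t <;>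
      simp [hx, hx', hz, hz', hmm]
  have f4 : ∑ i ∈ range c, 1 = c := by simp
  omega

end Pool.Agent.H53.ES
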