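import Pool.Agent.H53.ES.Wn
import Pool.Agent.H85.RS.Base
import Pool.Agent.H12.RS.Cf

/-!
# H53.ES.Pz: the pair inequality for the rule R*, without hypotheses
-/

set_option autoImplicit false

namespace Pool.Agent.H53.ES

open Finset Pool.Agent.H69L.TP
open Pool.Agent.H85.TK (Cb)

theorem fa_z {c r : ℕ} (hc : c ≤ r) {I : Finset ℕ} {w : ℕ → Bool} (hw : Cb c r I w) :
    Fa c r I w :=
  fa hw hc (fun _ hy => Pool.Agent.H85.RS.X_a hw hy) (fun _ hb => Pool.Agent.H85.RS.X_e hc hb)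

theorem count_z {c r : ℕ} (hc : c ≤ r) {I : Finset ℕ} {w : ℕ → Bool} (hw : Cst (c + r) I w) :
    (z c r w I).Z.card + (z c r w I).Wp.card + (z c r w I).Wm.card = c := by
  have h1 := (fa_z hc (cb_of hw)).tot
  have h2 := (fa_z hc (cb_cw (cb_of hw))).tot
  have h3 := zs_cw w (Nat.zero_le c)
  have h4 : Disjoint (Pool.Agent.H12.RS.X c r I w) (Pool.Agent.H12.RS.X c r I (cw w)) := by
    rw [disjoint_left]
    intro j h5 h6
    have h7 := Pool.Agent.H12.RS.X_one h5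
    have h8 := Pool.Agent.H12.RS.X_one h6
    unfold cw at h8
    rw [h7] at h8
    exact absurd h8 (by simp)
  show (Pool.Agent.H12.RS.X c r I w ∪ Pool.Agent.H12.RS.X c r I (cw w)).card +
    (Pool.Agent.H12.RS.W c r I (cw w)).card + (Pool.Agent.H12.RS.W c r I w).card = c
  rw [card_union_of_disjoint h4]
  omega

/-- RS-D: the pair inequality -/
theorem pair_rs {c r : ℕ} (hc : c ≤ r) (h0 : 0 < r) {u v : ℕ → Bool} {I I' : Finset ℕ}
    (huv : Cx (c + r) u v) (hu : Cst (c + r) I u) (hv : Cst (c + r) I' v) :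
    PI c r u v (z c r u I) (z c r v I') :=
  pair_z hc h0 (fun _ _ hw => fa_z hc hw) huv hu hv

theorem z_eq_zz (c r : ℕ) (w : ℕ → Bool) (I : Finset ℕ) :
    Pool.Agent.H12.RS.zz c r w I = z c r w I := rfl

theorem pair_zz {c r : ℕ} (hc : c ≤ r) (h0 : 0 < r) {u v : ℕ → Bool} {I I' : Finset ℕ}
    (huv : Cx (c + r) u v) (hu : Cst (c + r) I u) (hv : Cst (c + r) I' v) :
    PI c r u v (Pool.Agent.H12.RS.zz c r u I) (Pool.Agent.H12.RS.zz c r v I') :=
  pair_rs hc h0 huv hu hv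

theorem count_zz {c r : ℕ} (hc : c ≤ r) {I : Finset ℕ} {w : ℕ → Bool} (hw : Cst (c + r) I w) :
    (Pool.Agent.H12.RS.zz c r w I).Z.card + (Pool.Agent.H12.RS.zz c r w I).Wp.card +
      (Pool.Agent.H12.RS.zz c r w I).Wm.card = c := count_z hc hw

end Pool.Agent.H53.ES
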