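import Pool.Agent.H53.ES.Adm
import Pool.Agent.H12.RS.Def

/-!
# H53.ES.Rs: the pair inequality for the rule R* (RS-D)
-/

set_option autoImplicit false

namespace Pool.Agent.H53.ES

open Finset Pool.Agent.H69L.TP Pool.Agent.H12.RS
open Pool.Agent.H85.TK (zs be Cb rel cb_const)

theorem cb_cw {c r : ℕ} {I : Finset ℕ} {w : ℕ → Bool} (h : Cb c r I w) : Cb c r I (cw w) := by
  intro g hg h0 hgr
  unfold cw
  rw [h g hg h0 hgr]

theorem cb_of {c r : ℕ} {I : Finset ℕ} {w : ℕ → Bool} (h : Cst (c + r) I w) : Cb c r I w := h.1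

theorem nt {c r : ℕ} (hc : c ≤ r) {I : Finset ℕ} {w : ℕ → Bool} (hw : Cb c r I w) :
    Nt c w (X c r I w) where
  own := by
    intro T hT hTc
    unfold X at hT
    exact (mem_filter.1 hT).2.2.1 hTc
  nat := by
    intro T hTc h0 h1 hT i hi hic
    have h2 : ¬ Ph c r I w T (sr c r I w T) := by
      intro h
      apply hT
      unfold X
      exact mem_filter.2 ⟨mem_range.2 (by omega), h1, h⟩
    have h3 : rel c w T = 1 := by
      unfold rel
      rw [if_pos ⟨hTc, h0⟩]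
    have h4 : c < be I r T := by
      by_contra h5
      apply h2
      unfold Ph
      refine ⟨fun _ => h0, ?_⟩
      rw [h3]
      unfold th
      rw [if_pos hTc]
      omega
    rw [cb_const hw hi (by omega)]
    exact h0

/-- the one-sided facts of RS-A and RS-C -/
structure Fa (c r : ℕ) (I : Finset ℕ) (w : ℕ → Bool) : Prop where
  a : ∀ y ≤ r, zs w 0 c ≤ ((X c r I w).filter fun j => j < y).card + zs w y (y + c)
  tot : (X c r I w).card + (W c r I w).card = zs w 0 c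
  pre : ∀ b ≤ c, ((W c r I w).filter fun f => f < b).card ≤ zs w 0 b
  tail : ∀ b ≤ c, ((W c r I w).filter fun f => b ≤ f).card ≤ zs w (r + b) (r + c)

theorem sd {c r : ℕ} {I : Finset ℕ} {w : ℕ → Bool} (h : Fa c r I w) :
    Sd c r w (X c r I w) (W c r I w) where
  sub := X_sub c r I w
  one := fun _ hj => X_one hj
  wsub := W_sub c r I w
  tot := h.tot
  lo := h.a
  tail := h.tail

/-- the marks of the rule -/
def z (c r : ℕ) (w : ℕ → Bool) (I : Finset ℕ) : Mk :=
  ⟨X c r I w ∪ X c r I (cw w), W c r I (cw w), W c r I w⟩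

theorem ad_z {c r : ℕ} (hc : c ≤ r) {I : Finset ℕ} {w : ℕ → Bool} (hw : Cb c r I w)
    (h : Fa c r I w) (h' : Fa c r I (cw w)) :
    Ad c r w (X c r I w) (W c r I w) (X c r I (cw w)) (W c r I (cw w)) :=
  ad hc (sd h) (sd h') (nt hc hw) (nt hc (cb_cw hw)) h.pre h'.pre

/-- RS-D -/
theorem pair_z {c r : ℕ} (hc : c ≤ r) (h0 : 0 < r)
    (hF : ∀ (I : Finset ℕ) (w : ℕ → Bool), Cb c r I w → Fa c r I w)
    {u v : ℕ → Bool} {I I' : Finset ℕ} (huv : Cx (c + r) u v) (hu : Cst (c + r) I u)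
    (hv : Cst (c + r) I' v) : PI c r u v (z c r u I) (z c r v I') :=
  pair hc h0 huv (ad_z hc (cb_of hu) (hF _ _ (cb_of hu)) (hF _ _ (cb_cw (cb_of hu))))
    (ad_z hc (cb_of hv) (hF _ _ (cb_of hv)) (hF _ _ (cb_cw (cb_of hv))))

end Pool.Agent.H53.ES
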